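import Mathlib
import Pool.Agent.Lib.MP_9a747a_co_h56.Kst
import Pool.Agent.Lib.MP_9a747a_co_h56.Core2

/-!
# Incidences between points and hyperplanes over a finite field without `K_{r,c}`

Let `X` be a finite set of vectors (points) and `Y` a finite set of nonzero vectors (hyperplanes)
of `F^k`, `|F| = q`.  If no `r` elements of `X` are orthogonal to more than `c` common elements of
`Y` and `r ≤ a b` with `b ≥ 2`, then the Kővári–Sós–Turán bound gains the factor
`q^(-(a-1)/(ab))`, up to a term `m q^((k-1)/b - 1)` which is small in bounded dimension.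
-/

open Finset

namespace Pool.Agent.Results.MP_9a747a_co.BlockIncidences

open Pool.Agent.Lib.MP_9a747a_co_h56

/-- **Incidence bound.** -/
theorem result (a b r c : ℕ) (ha : 1 ≤ a) (hb : 2 ≤ b) (hr : 1 ≤ r) (hrab : r ≤ a * b) :
    ∃ C : ℝ, 0 < C ∧ ∀ (F : Type) [Field F] [Fintype F] [DecidableEq F] (k : ℕ)
      (X Y : Finset (Fin k → F)),
      (∀ y ∈ Y, y ≠ 0) →
      (∀ A ⊆ X, A.card = r → (Y.filter (fun y => ∀ x ∈ A, x ⬝ᵥ y = 0)).card ≤ c) →
      (((X ×ˢ Y).filter (fun p => p.1 ⬝ᵥ p.2 = 0)).card : ℝ) ≤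
        C * ((X.card : ℝ) * (Y.card : ℝ) ^ (1 - 1 / ((a : ℝ) * b)) *
              (Fintype.card F : ℝ) ^ (-(((a : ℝ) - 1) / (a * b))) +
            (Y.card : ℝ) * (Fintype.card F : ℝ) ^ (((k : ℝ) - 1) / b - 1) +
            (X.card : ℝ) * (Y.card : ℝ) ^ (1 - 1 / ((a : ℝ) * b - 2 * (a - 1))) +
            (Y.card : ℝ)) := by
  obtain ⟨C0, hC0, hcore⟩ := core2 a b r c ha hb hr hrab
  refine ⟨C0 + 4 * (c + 1) * b + 2 * r, by positivity, ?_⟩
  intro F _ _ _ k X Y hY hK
  rw [card_inc]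
  obtain ⟨E, hE⟩ : ∃ E : ℝ, E = ∑ y ∈ Y, ((X.filter (fun x => x ⬝ᵥ y = 0)).card : ℝ) := ⟨_, rfl⟩
  obtain ⟨n, hn⟩ : ∃ n : ℝ, n = X.card := ⟨_, rfl⟩
  obtain ⟨m, hm⟩ : ∃ m : ℝ, m = Y.card := ⟨_, rfl⟩
  obtain ⟨q, hq⟩ : ∃ q : ℝ, q = Fintype.card F := ⟨_, rfl⟩
  have hkst := kst r c hr F k X Y hK
  rw [← hE, ← hn, ← hm] at hkst
  rw [← hE, ← hn, ← hm, ← hq]
  have hn0 : 0 ≤ n := by rw [hn]; positivity
  have hm0 : 0 ≤ m := by rw [hm]; positivity
  have hq2 : 2 ≤ q := by
    rw [hq]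
    have : 1 < Fintype.card F := Fintype.one_lt_card
    exact_mod_cast this
  have hq0 : 0 < q := by linarith
  have haR : (1 : ℝ) ≤ a := by exact_mod_cast ha
  have hbR : (2 : ℝ) ≤ b := by exact_mod_cast hb
  have hrR : (1 : ℝ) ≤ r := by exact_mod_cast hr
  have hrabR : (r : ℝ) ≤ a * b := by exact_mod_cast hrab
  obtain ⟨u1, hu1⟩ : ∃ u1 : ℝ, u1 = n * m ^ (1 - 1 / ((a : ℝ) * b)) *
    q ^ (-(((a : ℝ) - 1) / (a * b))) := ⟨_, rfl⟩
  obtain ⟨u2, hu2⟩ : ∃ u2 : ℝ, u2 = m * q ^ (((k : ℝ) - 1) / b - 1) := ⟨_, rfl⟩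
  obtain ⟨u3, hu3⟩ : ∃ u3 : ℝ, u3 = n * m ^ (1 - 1 / ((a : ℝ) * b - 2 * (a - 1))) := ⟨_, rfl⟩
  rw [← hu1, ← hu2, ← hu3]
  have t1 : 0 ≤ u1 := by rw [hu1]; positivity
  have t2 : 0 ≤ u2 := by rw [hu2]; positivity
  have t3 : 0 ≤ u3 := by rw [hu3]; positivity
  by_contra hcon
  push Not at hcon
  by_cases hqb : 2 * b ≤ Fintype.card F
  · -- the main case
    have hC0' : (0 : ℝ) ≤ 4 * (c + 1) * b + 2 * r := by positivity
    have hcon' : C0 * (u1 + u2 + u3 + m) < E := by
      refine lt_of_le_of_lt ?_ hcon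
      apply mul_le_mul_of_nonneg_right _ (by positivity)
      linarith
    have hC00 : 0 ≤ C0 := by linarith
    have l1 : C0 * u1 < E :=
      lt_of_le_of_lt (mul_le_mul_of_nonneg_left (by linarith) hC00) hcon'
    have l2 : C0 * u2 < E :=
      lt_of_le_of_lt (mul_le_mul_of_nonneg_left (by linarith) hC00) hcon'
    have l3 : C0 * u3 < E :=
      lt_of_le_of_lt (mul_le_mul_of_nonneg_left (by linarith) hC00) hcon'
    have l4 : C0 * m < E :=
      lt_of_le_of_lt (mul_le_mul_of_nonneg_left (by linarith) hC00) hcon'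
    have hE0 : 0 < E := lt_of_le_of_lt (by positivity) l4
    have hk : 1 ≤ k := by
      by_contra hk
      have hk0 : k = 0 := by omega
      subst hk0
      have hYe : Y = ∅ := by
        rw [eq_empty_iff_forall_notMem]
        intro y hy
        exact hY y hy (Subsingleton.elim _ _)
      rw [hYe] at hE
      simp at hE
      linarith
    have hCpow : ∀ i : ℕ, 1 ≤ i → C0 ≤ C0 ^ i := by
      intro i hi
      calc C0 = C0 ^ 1 := (pow_one _).symm
        _ ≤ C0 ^ i := pow_le_pow_right₀ hC0 hi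
    have hab1 : 1 ≤ a * b := Nat.mul_le_mul ha (by omega : 1 ≤ b)
    have hab0 : ((a : ℝ) * b) ≠ 0 := by positivity
    have hβ1 : 2 ≤ b + (b - 2) * (a - 1) := by omega
    have hβR : ((b + (b - 2) * (a - 1) : ℕ) : ℝ) = (a : ℝ) * b - 2 * (a - 1) := by
      push_cast [Nat.cast_sub hb, Nat.cast_sub ha]
      ring
    refine hcore F k X Y hqb hk hY hK n m q E hn hm hq hE ?_ ?_ ?_ l4
    · have h1 := pow_lt_pow_left₀ l1 (by positivity) (n := a * b) (by omega)
      rw [hu1, mul_pow, mul_pow, mul_pow] at h1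
      have e1 : (m ^ (1 - 1 / ((a : ℝ) * b))) ^ (a * b) = m ^ (a * b - 1) := by
        rw [← Real.rpow_natCast, ← Real.rpow_mul hm0]
        have : (1 - 1 / ((a : ℝ) * b)) * ((a * b : ℕ) : ℝ) = ((a * b - 1 : ℕ) : ℝ) := by
          rw [Nat.cast_sub hab1]
          push_cast
          field_simp
        rw [this, Real.rpow_natCast]
      have e2 : (q ^ (-(((a : ℝ) - 1) / (a * b)))) ^ (a * b) * q ^ (a - 1) = 1 := by
        rw [← Real.rpow_natCast, ← Real.rpow_mul hq0.le, ← Real.rpow_natCast q (a - 1),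
          ← Real.rpow_add hq0]
        have : -(((a : ℝ) - 1) / (a * b)) * ((a * b : ℕ) : ℝ) + ((a - 1 : ℕ) : ℝ) = 0 := by
          rw [Nat.cast_sub ha]
          push_cast
          field_simp
          ring
        rw [this, Real.rpow_zero]
      rw [e1] at h1
      have h2 := mul_lt_mul_of_pos_right h1 (show 0 < q ^ (a - 1) by positivity)
      calc C0 * n ^ (a * b) * m ^ (a * b - 1)
          ≤ C0 ^ (a * b) * n ^ (a * b) * m ^ (a * b - 1) := by
            apply mul_le_mul_of_nonneg_right _ (by positivity)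
            exact mul_le_mul_of_nonneg_right (hCpow _ hab1) (by positivity)
        _ = C0 ^ (a * b) * (n ^ (a * b) * m ^ (a * b - 1) *
              (q ^ (-(((a : ℝ) - 1) / (a * b)))) ^ (a * b)) * q ^ (a - 1) := by
            have : C0 ^ (a * b) * (n ^ (a * b) * m ^ (a * b - 1) *
              (q ^ (-(((a : ℝ) - 1) / (a * b)))) ^ (a * b)) * q ^ (a - 1) =
              C0 ^ (a * b) * n ^ (a * b) * m ^ (a * b - 1) *
              ((q ^ (-(((a : ℝ) - 1) / (a * b)))) ^ (a * b) * q ^ (a - 1)) := by ring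
            rw [this, e2, mul_one]
        _ < E ^ (a * b) * q ^ (a - 1) := h2
    · have h1 := pow_lt_pow_left₀ l2 (by positivity) (n := b) (by omega)
      rw [hu2, mul_pow, mul_pow] at h1
      have e1 : (q ^ (((k : ℝ) - 1) / b - 1)) ^ b * q ^ b = q ^ (k - 1) := by
        rw [← Real.rpow_natCast (q ^ (((k : ℝ) - 1) / b - 1)), ← Real.rpow_mul hq0.le,
          ← Real.rpow_natCast q b, ← Real.rpow_add hq0, ← Real.rpow_natCast q (k - 1)]
        congr 1
        rw [Nat.cast_sub hk]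
        push_cast
        field_simp
        ring
      have h2 := mul_lt_mul_of_pos_right h1 (show 0 < q ^ b by positivity)
      calc C0 * m ^ b * q ^ (k - 1) ≤ C0 ^ b * m ^ b * q ^ (k - 1) := by
            apply mul_le_mul_of_nonneg_right _ (by positivity)
            exact mul_le_mul_of_nonneg_right (hCpow _ (by omega)) (by positivity)
        _ = C0 ^ b * (m ^ b * (q ^ (((k : ℝ) - 1) / b - 1)) ^ b) * q ^ b := by
            rw [← e1]; ring
        _ < E ^ b * q ^ b := h2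
    · have h1 := pow_lt_pow_left₀ l3 (by positivity) (n := b + (b - 2) * (a - 1)) (by omega)
      rw [hu3, mul_pow, mul_pow] at h1
      have e1 : (m ^ (1 - 1 / ((a : ℝ) * b - 2 * (a - 1)))) ^ (b + (b - 2) * (a - 1)) =
          m ^ (b + (b - 2) * (a - 1) - 1) := by
        rw [← Real.rpow_natCast, ← Real.rpow_mul hm0, ← hβR]
        have hβ0 : ((b + (b - 2) * (a - 1) : ℕ) : ℝ) ≠ 0 := by
          have : b + (b - 2) * (a - 1) ≠ 0 := by omega
          exact_mod_cast this
        have : (1 - 1 / ((b + (b - 2) * (a - 1) : ℕ) : ℝ)) * ((b + (b - 2) * (a - 1) : ℕ) : ℝ) =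
            ((b + (b - 2) * (a - 1) - 1 : ℕ) : ℝ) := by
          rw [Nat.cast_sub (by omega : 1 ≤ b + (b - 2) * (a - 1)), sub_mul,
            one_div_mul_cancel hβ0]
          simp
        rw [this, Real.rpow_natCast]
      rw [e1] at h1
      calc C0 * n ^ (b + (b - 2) * (a - 1)) * m ^ (b + (b - 2) * (a - 1) - 1)
          ≤ C0 ^ (b + (b - 2) * (a - 1)) * n ^ (b + (b - 2) * (a - 1)) *
            m ^ (b + (b - 2) * (a - 1) - 1) := by
            apply mul_le_mul_of_nonneg_right _ (by positivity)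
            exact mul_le_mul_of_nonneg_right (hCpow _ (by omega)) (by positivity)
        _ = C0 ^ (b + (b - 2) * (a - 1)) * (n ^ (b + (b - 2) * (a - 1)) *
            m ^ (b + (b - 2) * (a - 1) - 1)) := by ring
        _ < E ^ (b + (b - 2) * (a - 1)) := h1
  · -- small fields
    push Not at hqb
    have hqle : q ≤ 2 * b := by
      rw [hq]
      have : Fintype.card F ≤ 2 * b := hqb.le
      exact_mod_cast this
    rcases hm0.lt_or_eq with hmpos | hm0'
    · have hm1 : 1 ≤ m := by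
        rw [hm] at hmpos ⊢
        have : 0 < Y.card := by exact_mod_cast hmpos
        exact_mod_cast this
      have s1 : m ^ (1 - 1 / (r : ℝ)) ≤ m ^ (1 - 1 / ((a : ℝ) * b)) := by
        apply Real.rpow_le_rpow_of_exponent_le hm1
        have : 1 / ((a : ℝ) * b) ≤ 1 / (r : ℝ) :=
          one_div_le_one_div_of_le (by linarith) hrabR
        linarith
      have s2 : 1 ≤ 2 * (b : ℝ) * q ^ (-(((a : ℝ) - 1) / (a * b))) := by
        have hth : ((a : ℝ) - 1) / (a * b) ≤ 1 := by
          rw [div_le_one (by positivity)]; nlinarith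
        have h3 : q ^ (-(1 : ℝ)) ≤ q ^ (-(((a : ℝ) - 1) / (a * b))) :=
          Real.rpow_le_rpow_of_exponent_le (by linarith) (by linarith)
        rw [Real.rpow_neg_one] at h3
        have h4 : 1 ≤ 2 * (b : ℝ) * q⁻¹ := by
          rw [← div_eq_mul_inv, le_div_iff₀ hq0]; linarith
        exact h4.trans (mul_le_mul_of_nonneg_left h3 (by positivity))
      have s3 : n * m ^ (1 - 1 / (r : ℝ)) ≤ 2 * b * u1 := by
        calc n * m ^ (1 - 1 / (r : ℝ)) ≤ n * m ^ (1 - 1 / ((a : ℝ) * b)) :=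
              mul_le_mul_of_nonneg_left s1 hn0
          _ = n * m ^ (1 - 1 / ((a : ℝ) * b)) * 1 := (mul_one _).symm
          _ ≤ n * m ^ (1 - 1 / ((a : ℝ) * b)) * (2 * b * q ^ (-(((a : ℝ) - 1) / (a * b)))) :=
              mul_le_mul_of_nonneg_left s2 (by positivity)
          _ = _ := by rw [hu1]; ring
      have s4 : E ≤ 4 * (c + 1) * b * u1 + 2 * r * m := by
        have := mul_le_mul_of_nonneg_left s3 (show (0 : ℝ) ≤ 2 * (c + 1) by positivity)
        calc E ≤ _ := hkst
          _ ≤ _ := by linarith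
      have s5 : 0 ≤ C0 * u1 := by positivity
      have s6 : 0 ≤ 2 * (r : ℝ) * u1 := by positivity
      have s7 : 0 ≤ (C0 + 4 * (c + 1) * b + 2 * r) * (u2 + u3) := by positivity
      have s8 : 0 ≤ (C0 + 4 * (c + 1) * (b : ℝ)) * m := by positivity
      have s9 : (C0 + 4 * (c + 1) * b + 2 * r) * (u1 + u2 + u3 + m) =
          C0 * u1 + 4 * (c + 1) * b * u1 + 2 * (r : ℝ) * u1 +
          (C0 + 4 * (c + 1) * b + 2 * r) * (u2 + u3) + (C0 + 4 * (c + 1) * (b : ℝ)) * m +
          2 * r * m := by ring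
      rw [s9] at hcon
      linarith
    · have hYe : Y = ∅ := by
        rw [← card_eq_zero]
        have : (Y.card : ℝ) = 0 := by rw [← hm, ← hm0']
        exact_mod_cast this
      rw [hYe] at hE
      simp at hE
      rw [hE] at hcon
      have : 0 ≤ (C0 + 4 * (c + 1) * b + 2 * r) * (u1 + u2 + u3 + m) := by positivity
      linarith

end Pool.Agent.Results.MP_9a747a_co.BlockIncidences
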