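import Mathlib
import Pool.Agent.Lib.MP_9a747a_co_h91.Flat
import Pool.Agent.Lib.MP_9a747a_co_h98.Cube

set_option autoImplicit false

/-!
# `K_{r,s}`-free graphs with a free elementary abelian 2-group of automorphisms

If the graph `G` on `n` vertices has no `K_{r,s}` with `r, s ≤ 2^d`, and `T` is a group of
automorphisms of exponent two in which only the identity fixes a vertex, then
`e(G) ≤ 2 n² |T|^(-1/2^(d-1))`.
-/

open Finset

namespace Pool.Agent.Results.MP_9a747a_co.FreeInvolutions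

open Pool.Agent.Lib.MP_9a747a_co_h91

/-- a coset of a subgroup of order `2^(d+1)` in the connection set gives `K_{r,s}` -/
theorem contained {V : Type} (G : SimpleGraph V) (T : Subgroup (G ≃g G))
    (hfree : ∀ g ∈ T, g ≠ 1 → ∀ v, g v ≠ v) {r s d : ℕ} (hr : r ≤ 2 ^ d) (hs : s ≤ 2 ^ d)
    [DecidableEq T] [Fintype T]
    (x y : V) (W : Finset T) (c : T)
    (hmul : ∀ a ∈ W, ∀ b ∈ W, a⁻¹ * b ∈ W) (hcard : W.card = 2 ^ d)
    (hcomm : ∀ a b : T, a * b = b * a)
    (hc : ∀ w ∈ W, G.Adj x ((c * w : T).1 y)) :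
    (completeBipartiteGraph (Fin r) (Fin s)).IsContained G := by
  have hadj : ∀ a ∈ W, ∀ b ∈ W, G.Adj (a.1 x) ((c * b : T).1 y) := by
    intro a ha b hb
    have h1 := hc _ (hmul a ha b hb)
    have h2 := (a.1.map_adj_iff).2 h1
    have h3 : a.1 ((c * (a⁻¹ * b) : T).1 y) = (c * b : T).1 y := by
      have : a * (c * (a⁻¹ * b)) = c * b := by
        rw [← mul_assoc, hcomm a c, mul_assoc, ← mul_assoc a, mul_inv_cancel, one_mul]
      calc a.1 ((c * (a⁻¹ * b) : T).1 y) = (a * (c * (a⁻¹ * b)) : T).1 y := rfl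
        _ = _ := by rw [this]
    rw [h3] at h2
    exact h2
  have hinj : ∀ (v : V) (a b : T), a.1 v = b.1 v → a = b := by
    intro v a b h
    by_contra hne
    have h1 : (b⁻¹ * a : T) ≠ 1 := by
      intro h
      apply hne
      rw [inv_mul_eq_one] at h
      exact h.symm
    have h2 : (b⁻¹ * a : T).1 v = v := by
      calc (b⁻¹ * a : T).1 v = (b⁻¹ : T).1 (a.1 v) := rfl
        _ = (b⁻¹ : T).1 (b.1 v) := by rw [h]
        _ = (b⁻¹ * b : T).1 v := rfl
        _ = v := by
          rw [inv_mul_cancel]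
          rfl
    refine hfree _ (b⁻¹ * a : T).2 ?_ v h2
    intro h
    exact h1 (Subtype.ext h)
  obtain ⟨e⟩ : Nonempty (Fin (2 ^ d) ≃ W) := by
    refine Fintype.card_eq.1 ?_
    rw [Fintype.card_fin, Fintype.card_coe, hcard]
  let f : Fin r ⊕ Fin s → V := fun i => match i with
    | Sum.inl i => (e (Fin.castLE hr i)).1.1 x
    | Sum.inr j => (c * (e (Fin.castLE hs j)).1 : T).1 y
  have hne : ∀ (i : Fin r) (j : Fin s), f (Sum.inl i) ≠ f (Sum.inr j) := by
    intro i j
    exact (hadj _ (e (Fin.castLE hr i)).2 _ (e (Fin.castLE hs j)).2).ne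
  refine ⟨⟨⟨f, ?_⟩, ?_⟩⟩
  · intro a b hab
    rw [completeBipartiteGraph_adj] at hab
    rcases a with i | i
    · rcases b with j | j
      · simp at hab
      · exact hadj _ (e (Fin.castLE hr i)).2 _ (e (Fin.castLE hs j)).2
    · rcases b with j | j
      · exact (hadj _ (e (Fin.castLE hr j)).2 _ (e (Fin.castLE hs i)).2).symm
      · simp at hab
  · intro a b hab
    change f a = f b at hab
    rcases a with i | i
    · rcases b with j | j
      · have h1 := hinj x _ _ hab
        have h2 := e.injective (Subtype.ext h1)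
        rw [Fin.castLE_inj] at h2
        rw [h2]
      · exact absurd hab (hne i j)
    · rcases b with j | j
      · exact absurd hab.symm (hne j i)
      · have h1 := hinj y _ _ hab
        have h3 := mul_left_cancel h1
        have h2 := e.injective (Subtype.ext h3)
        rw [Fin.castLE_inj] at h2
        rw [h2]

/-- **Bound.** Let `G` be a graph on a finite set `V` which contains no `K_{r,s}`, where
`r, s ≤ 2^d`, `d ≥ 1`, and let `T` be a group of automorphisms of `G` all of whose elements have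
order at most two and in which only the identity fixes a vertex. Then
`e(G) ≤ 2 |V|² |T|^(-1/2^(d-1))`. -/
theorem bound (d : ℕ) (hd : 1 ≤ d) (r s : ℕ) (hr : r ≤ 2 ^ d) (hs : s ≤ 2 ^ d)
    (V : Type) [Fintype V] (G : SimpleGraph V) [DecidableRel G.Adj]
    (hG : ¬ (completeBipartiteGraph (Fin r) (Fin s)).IsContained G)
    (T : Subgroup (G ≃g G)) (hT : ∀ g ∈ T, g * g = 1)
    (hfree : ∀ g ∈ T, g ≠ 1 → ∀ v, g v ≠ v) :
    (G.edgeFinset.card : ℝ) ≤
      2 * (Fintype.card V : ℝ) ^ 2 * (Nat.card T : ℝ) ^ (-(1 / (2 : ℝ) ^ (d - 1))) := by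
  classical
  have hfin : Finite (G ≃g G) := by
    refine Finite.of_injective (fun g : G ≃g G => (g.toEquiv : V ≃ V)) ?_
    intro a b h
    exact RelIso.toEquiv_injective h
  have : Fintype T := Fintype.ofFinite _
  have h2 : ∀ x : T, x * x = 1 := fun x => Subtype.ext (hT x.1 x.2)
  have hinv : ∀ x : T, x⁻¹ = x := fun x => inv_eq_of_mul_eq_one_right (h2 x)
  have hcomm : ∀ a b : T, a * b = b * a := by
    intro a b
    have h := hinv (a * b)
    rw [mul_inv_rev, hinv, hinv] at h
    exact h.symm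
  let inst : CommGroup T := { (inferInstance : Group T) with mul_comm := hcomm }
  obtain ⟨d, rfl⟩ : ∃ e, d = e + 1 := ⟨d - 1, by omega⟩
  rw [Nat.add_sub_cancel, Nat.card_eq_fintype_card]
  set N : ℝ := (Fintype.card T : ℝ) with hN
  have hN0 : 0 < N := by
    have : 0 < Fintype.card T := Fintype.card_pos
    rw [hN]
    exact_mod_cast this
  -- the connection sets
  let S : V → V → Finset T := fun x y => univ.filter fun t => G.Adj x (t.1 y)
  have hS : ∀ x y, ((S x y).card : ℝ) ≤ 4 * N ^ (1 - 1 / (2 : ℝ) ^ d) := by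
    intro x y
    by_contra hcon
    push Not at hcon
    obtain ⟨W, c, hW, hc⟩ := flat h2 (S x y) d hcon
    refine hG (contained G T hfree hr hs x y W c ?_ hW.card hcomm ?_)
    · intro a ha b hb
      have := hinv a
      rw [this]
      exact hW.mul a ha b hb
    · intro w hw
      exact (mem_filter.1 (hc w hw)).2
  -- double counting
  have hdeg : ∀ x, Fintype.card T * G.degree x = ∑ y, (S x y).card := by
    intro x
    have h1 : ∀ t : T, (univ.filter fun y => G.Adj x (t.1 y)).card = G.degree x := by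
      intro t
      rw [← G.card_neighborFinset_eq_degree]
      refine card_bij (fun y _ => t.1 y) ?_ ?_ ?_
      · intro y hy
        rw [SimpleGraph.mem_neighborFinset]
        exact (mem_filter.1 hy).2
      · intro a _ b _ hab
        exact t.1.injective hab
      · intro b hb
        rw [SimpleGraph.mem_neighborFinset] at hb
        refine ⟨t.1.symm b, ?_, ?_⟩
        · rw [mem_filter]
          refine ⟨mem_univ _, ?_⟩
          rw [RelIso.apply_symm_apply]
          exact hb
        · exact RelIso.apply_symm_apply _ _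
    calc Fintype.card T * G.degree x
        = ∑ t : T, (univ.filter fun y => G.Adj x (t.1 y)).card := by
          rw [sum_congr rfl fun t _ => h1 t, sum_const, card_univ, smul_eq_mul]
      _ = ∑ t : T, ∑ y, if G.Adj x (t.1 y) then 1 else 0 := by
          refine sum_congr rfl fun t _ => ?_
          rw [card_filter]
      _ = ∑ y, ∑ t : T, if G.Adj x (t.1 y) then 1 else 0 := sum_comm
      _ = _ := by
          refine sum_congr rfl fun y _ => ?_
          rw [card_filter]
  have hE : (N : ℝ) * (2 * G.edgeFinset.card) ≤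
      (Fintype.card V : ℝ) ^ 2 * (4 * N ^ (1 - 1 / (2 : ℝ) ^ d)) := by
    have h3 : (∑ x, G.degree x : ℕ) = 2 * G.edgeFinset.card := G.sum_degrees_eq_twice_card_edges
    have h4 : (Fintype.card T * (2 * G.edgeFinset.card) : ℕ) = ∑ x, ∑ y, (S x y).card := by
      rw [← h3, mul_sum]
      exact sum_congr rfl fun x _ => hdeg x
    have h5 : (N : ℝ) * (2 * G.edgeFinset.card) = ∑ x : V, ∑ y : V, ((S x y).card : ℝ) := by
      have := congrArg (fun n : ℕ => (n : ℝ)) h4
      push_cast at this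
      rw [← this]
    rw [h5]
    calc ∑ x : V, ∑ y : V, ((S x y).card : ℝ)
        ≤ ∑ _x : V, ∑ _y : V, 4 * N ^ (1 - 1 / (2 : ℝ) ^ d) :=
          sum_le_sum fun x _ => sum_le_sum fun y _ => hS x y
      _ = _ := by
          rw [sum_const, sum_const, card_univ]
          simp only [nsmul_eq_mul]
          ring
  have h6 : N ^ (1 - 1 / (2 : ℝ) ^ d) = N * N ^ (-(1 / (2 : ℝ) ^ d)) := by
    rw [sub_eq_add_neg, Real.rpow_add hN0, Real.rpow_one]
  rw [h6] at hE
  have h7 : N * (2 * (G.edgeFinset.card : ℝ)) ≤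
      N * (2 * (2 * (Fintype.card V : ℝ) ^ 2 * N ^ (-(1 / (2 : ℝ) ^ d)))) := by
    calc _ ≤ _ := hE
      _ = _ := by ring
  have h8 := le_of_mul_le_mul_left h7 hN0
  linarith


open Pool.MP9a747aH98

/-- translations as automorphisms of the Cayley graph -/
def shift {k : ℕ} (S : Finset (Fin k → ZMod 2)) (t : Fin k → ZMod 2) : cay S ≃g cay S where
  toEquiv := Equiv.addRight t
  map_rel_iff' := by
    intro u v
    simp only [Equiv.coe_addRight]
    constructor
    · rintro ⟨h1, h2⟩
      refine ⟨fun h => h1 (by rw [h]), ?_⟩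
      have h3 : u + t + (v + t) = u + v := by
        calc u + t + (v + t) = (u + v) + (t + t) := by abel
          _ = _ := by rw [two_zero, add_zero]
      rw [h3] at h2
      exact h2
    · rintro ⟨h1, h2⟩
      refine ⟨fun h => h1 (add_right_cancel h), ?_⟩
      have h3 : u + t + (v + t) = u + v := by
        calc u + t + (v + t) = (u + v) + (t + t) := by abel
          _ = _ := by rw [two_zero, add_zero]
      rw [h3]
      exact h2

def shiftHom {k : ℕ} (S : Finset (Fin k → ZMod 2)) :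
    Multiplicative (Fin k → ZMod 2) →* (cay S ≃g cay S) where
  toFun t := shift S t.toAdd
  map_one' := by
    ext u i
    simp [shift]
  map_mul' := by
    intro s t
    ext u i
    simp only [shift, toAdd_mul, RelIso.mul_apply, RelIso.coe_fn_mk, Equiv.coe_addRight]
    rw [add_comm s.toAdd t.toAdd, add_assoc]

theorem shiftHom_apply {k : ℕ} (S : Finset (Fin k → ZMod 2))
    (t : Multiplicative (Fin k → ZMod 2)) (u : Fin k → ZMod 2) :
    shiftHom S t u = u + t.toAdd := rfl

theorem upper {k r s : ℕ} (hr : r ≤ 4) (hs : s ≤ 4) (S : Finset (Fin k → ZMod 2))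
    [DecidableRel (cay S).Adj]
    (h : ¬ (completeBipartiteGraph (Fin r) (Fin s)).IsContained (cay S)) :
    ((cay S).edgeFinset.card : ℝ) ≤ 2 * ((2 : ℝ) ^ k) ^ (3 / 2 : ℝ) := by
  have hcard : Nat.card (shiftHom S).range = 2 ^ k := by
    have hinj : Function.Injective (shiftHom S) := by
      intro a b hab
      have h1 := congrArg (fun g : cay S ≃g cay S => g 0) hab
      simp only [shiftHom_apply, zero_add] at h1
      exact h1
    rw [← Nat.card_congr (MonoidHom.ofInjective hinj).toEquiv, Nat.card_eq_fintype_card,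
      Fintype.card_multiplicative, Fintype.card_fun, ZMod.card, Fintype.card_fin]
  have h1 := bound 2 (by norm_num) r s
    (by omega) (by omega) _ (cay S) h (shiftHom S).range ?_ ?_
  · rw [hcard, Fintype.card_fun, ZMod.card, Fintype.card_fin] at h1
    refine h1.trans (le_of_eq ?_)
    push_cast
    have hpos : (0 : ℝ) < 2 ^ k := by positivity
    rw [mul_assoc]
    congr 1
    rw [← Real.rpow_natCast ((2 : ℝ) ^ k) 2, ← Real.rpow_add hpos]
    congr 1
    norm_num
  · rintro _ ⟨t, rfl⟩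
    rw [← map_mul]
    have : t * t = 1 := by
      change Multiplicative.ofAdd (t.toAdd + t.toAdd) = 1
      rw [two_zero]
      rfl
    rw [this, map_one]
  · rintro _ ⟨t, rfl⟩ hne v hv
    apply hne
    rw [shiftHom_apply] at hv
    have h2 : v + t.toAdd = v + 0 := by rw [hv, add_zero]
    have h3 := add_left_cancel h2
    have : t = 1 := h3
    rw [this, map_one]

theorem lower {k : ℕ} (hk : 2 ≤ k) : ∃ S : Finset (Fin k → ZMod 2), 0 ∉ S ∧ Good S ∧
    ∀ [DecidableRel (cay S).Adj],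
      ((2 : ℝ) ^ k) ^ (3 / 2 : ℝ) / 8 ≤ ((cay S).edgeFinset.card : ℝ) := by
  obtain ⟨m, b, hm, hb, hk'⟩ : ∃ m b : ℕ, 1 ≤ m ∧ b ≤ 1 ∧ k = 2 * m + b :=
    ⟨k / 2, k % 2, by omega, by omega, by omega⟩
  subst hk'
  obtain ⟨S, h0, hgood, hcard⟩ := exists_set m b hm
  refine ⟨S, h0, hgood, ?_⟩
  intro _
  have h1 := edges S h0
  rw [hcard] at h1
  have h2 : (2 : ℝ) * ((cay S).edgeFinset.card : ℝ) = 2 ^ (2 * m + b) * (2 ^ m - 1) := by
    have h3 : ((2 * (cay S).edgeFinset.card : ℕ) : ℝ) =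
        ((2 ^ (2 * m + b) * (2 ^ m - 1) : ℕ) : ℝ) := by rw [h1]
    have h4 : 1 ≤ 2 ^ m := Nat.one_le_two_pow
    push_cast [Nat.cast_sub h4] at h3
    exact h3
  set N : ℝ := (2 : ℝ) ^ (2 * m + b) with hN
  have hNpos : 0 < N := by positivity
  have h5 : N ^ (3 / 2 : ℝ) = N * N ^ (1 / 2 : ℝ) := by
    rw [← Real.rpow_one_add' hNpos.le (by norm_num)]
    norm_num
  have h6 : N ^ (1 / 2 : ℝ) ≤ 2 * 2 ^ m := by
    have h7 : N ≤ (2 * 2 ^ m) ^ 2 := by
      rw [hN, mul_pow, ← pow_mul, pow_add, mul_comm m 2, mul_comm]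
      refine mul_le_mul_of_nonneg_right ?_ (by positivity)
      calc (2 : ℝ) ^ b ≤ 2 ^ 1 := pow_le_pow_right₀ (by norm_num) hb
        _ ≤ 2 ^ 2 := by norm_num
    rw [← Real.sqrt_eq_rpow]
    calc Real.sqrt N ≤ Real.sqrt ((2 * 2 ^ m) ^ 2) := Real.sqrt_le_sqrt h7
      _ = _ := Real.sqrt_sq (by positivity)
  have h8 : (2 : ℝ) ≤ 2 ^ m := by
    calc (2 : ℝ) = 2 ^ 1 := by norm_num
      _ ≤ 2 ^ m := pow_le_pow_right₀ (by norm_num) hm
  rw [h5]
  have h9 : N * N ^ (1 / 2 : ℝ) ≤ N * (2 * 2 ^ m) := mul_le_mul_of_nonneg_left h6 hNpos.le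
  nlinarith [mul_le_mul_of_nonneg_left h8 hNpos.le]


/-- **Theorem.** (1) Let `G` be a graph on a finite set `V` which contains no `K_{r,s}`, where
`r, s ≤ 2^d`, `d ≥ 1`, and let `T` be a group of automorphisms of `G` all of whose elements have
order at most two and in which only the identity fixes a vertex. Then
`e(G) ≤ 2 |V|² |T|^(-1/2^(d-1))`. (2) For `k ≥ 2`, `n = 2^k`, `2 ≤ r ≤ 4` and `3 ≤ s ≤ 4` the
largest number of edges of a `K_{r,s}`-free Cayley graph of `(Z/2)^k` is between `n^(3/2)/8` and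
`2 n^(3/2)`. -/
theorem result :
    (∀ (d : ℕ), 1 ≤ d → ∀ (r s : ℕ), r ≤ 2 ^ d → s ≤ 2 ^ d →
      ∀ (V : Type) [Fintype V] (G : SimpleGraph V) [DecidableRel G.Adj],
        ¬ (completeBipartiteGraph (Fin r) (Fin s)).IsContained G →
        ∀ (T : Subgroup (G ≃g G)), (∀ g ∈ T, g * g = 1) →
          (∀ g ∈ T, g ≠ 1 → ∀ v, g v ≠ v) →
          (G.edgeFinset.card : ℝ) ≤
            2 * (Fintype.card V : ℝ) ^ 2 * (Nat.card T : ℝ) ^ (-(1 / (2 : ℝ) ^ (d - 1)))) ∧
    ∀ k r s : ℕ, 2 ≤ k → 2 ≤ r → r ≤ 4 → 3 ≤ s → s ≤ 4 →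
      (∀ (S : Finset (Fin k → ZMod 2)) [DecidableRel (cay S).Adj],
        ¬ (completeBipartiteGraph (Fin r) (Fin s)).IsContained (cay S) →
        ((cay S).edgeFinset.card : ℝ) ≤ 2 * ((2 : ℝ) ^ k) ^ (3 / 2 : ℝ)) ∧
      ∃ (S : Finset (Fin k → ZMod 2)) (_ : DecidableRel (cay S).Adj),
        ¬ (completeBipartiteGraph (Fin r) (Fin s)).IsContained (cay S) ∧
        ((2 : ℝ) ^ k) ^ (3 / 2 : ℝ) / 8 ≤ ((cay S).edgeFinset.card : ℝ) := by
  refine ⟨?_, ?_⟩
  · intro d hd r s hr hs V _ G _ hG T hT hfree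
    exact bound d hd r s hr hs V G hG T hT hfree
  · intro k r s hk hr hr4 hs hs4
    refine ⟨fun S _ h => upper hr4 hs4 S h, ?_⟩
    obtain ⟨S, -, hgood, hS⟩ := lower hk
    classical
    exact ⟨S, Classical.decRel _, not_contained hgood hr hs, hS⟩

end Pool.Agent.Results.MP_9a747a_co.FreeInvolutions
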